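import Pool.Agent.Helper63.XP.StA

/-!
# Project XP (MP_c973ff_an): module COR
-/

set_option autoImplicit false

namespace Pool.Agent.Helper81.XP

open Pool.Agent.Helper63.XP
open Finset

/-- Vandermonde -/
theorem vand {F : Type} [Field F] [DecidableEq F] (w : ℕ) (f : F →₀ F) (hf : f.support.card ≤ w)
    (h : Finsupp.linearCombination F (vc (F := F) w) f = 0) : f = 0 := by
  by_contra hne
  obtain ⟨x0, hx0⟩ := Finsupp.support_nonempty_iff.2 hne
  obtain ⟨P, hP⟩ : ∃ P : Polynomial F, P = ∏ y ∈ f.support.erase x0, (Polynomial.X - Polynomial.C y) :=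
    ⟨_, rfl⟩
  have hdeg : P.natDegree < w := by
    rw [hP, Polynomial.natDegree_prod_of_monic _ _ (fun y _ => Polynomial.monic_X_sub_C y)]
    simp only [Polynomial.natDegree_X_sub_C, sum_const, smul_eq_mul, mul_one]
    have := card_erase_lt_of_mem hx0
    omega
  have hcomp : ∀ a : ℕ, a < w → ∑ x ∈ f.support, f x * x ^ a = 0 := by
    intro a ha
    have h1 := congrFun h ⟨a, ha⟩
    rw [Finsupp.linearCombination_apply, Finsupp.sum, Finset.sum_apply] at h1
    exact h1
  have h1 : ∑ x ∈ f.support, f x * P.eval x = 0 := by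
    simp only [Polynomial.eval_eq_sum_range' hdeg, mul_sum]
    rw [sum_comm]
    apply sum_eq_zero
    intro i hi
    have h2 := hcomp i (mem_range.1 hi)
    calc ∑ x ∈ f.support, f x * (P.coeff i * x ^ i) = P.coeff i * ∑ x ∈ f.support, f x * x ^ i := by
          rw [mul_sum]
          exact sum_congr rfl (fun x _ => by ring)
      _ = 0 := by rw [h2, mul_zero]
  rw [sum_eq_single_of_mem x0 hx0] at h1
  · rcases mul_eq_zero.1 h1 with h2 | h2
    · exact (Finsupp.mem_support_iff.1 hx0) h2
    · rw [hP, Polynomial.eval_prod, prod_eq_zero_iff] at h2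
      obtain ⟨y, hy, h3⟩ := h2
      rw [Polynomial.eval_sub, Polynomial.eval_X, Polynomial.eval_C, sub_eq_zero] at h3
      exact (mem_erase.1 hy).1 h3.symm
  · intro y hy hne2
    have : P.eval y = 0 := by
      rw [hP, Polynomial.eval_prod]
      apply prod_eq_zero (mem_erase.2 ⟨hne2, hy⟩)
      simp
    rw [this, mul_zero]

theorem uniq {F : Type} [Field F] [DecidableEq F] (w : ℕ) (f g : F →₀ F)
    (hf : f.support.card + g.support.card ≤ w)
    (h : Finsupp.linearCombination F (vc (F := F) w) f = Finsupp.linearCombination F (vc (F := F) w) g) :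
    f = g := by
  have h1 : f - g = 0 := by
    apply vand w
    · refine (card_le_card Finsupp.support_sub).trans ((card_union_le _ _).trans hf)
    · rw [map_sub, h, sub_self]
  exact sub_eq_zero.1 h1

theorem supp_add {F : Type} [Field F] [DecidableEq F] (f : F →₀ F) (x c : F) (hx : x ∉ f.support)
    (hc : c ≠ 0) : (f + Finsupp.single x c).support.card = f.support.card + 1 := by
  rw [Finsupp.support_add_eq]
  · rw [card_union_of_disjoint]
    · rw [Finsupp.support_single_ne_zero _ hc, card_singleton]
    · rw [Finsupp.support_single_ne_zero _ hc]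
      exact disjoint_singleton_right.2 hx
  · rw [Finsupp.support_single_ne_zero _ hc]
    exact disjoint_singleton_right.2 hx

theorem hCOR : StCor := by
  intro F _ _ r J Q T U hr hrJ hQ hT hT1 hU1
  classical
  obtain ⟨t0, ht0⟩ := hT
  obtain ⟨L, hL⟩ : ∃ L : (F →₀ F) →ₗ[F] (Fin (2 * r) → F),
    L = Finsupp.linearCombination F (vc (F := F) (2 * r)) := ⟨_, rfl⟩
  have hLs : ∀ x c, L (Finsupp.single x c) = c • vc (2 * r) x := by
    intro x c
    rw [hL, Finsupp.linearCombination_single]
  have hun : ∀ f g : F →₀ F, f.support.card + g.support.card ≤ 2 * r → L f = L g → f = g := by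
    intro f g h1 h2
    rw [hL] at h2
    exact uniq (2 * r) f g h1 h2
  obtain ⟨Tn, hTn⟩ : ∃ Tn : ℕ → Finset (F × (Fin (2 * r) → F)), Tn = fun n =>
    T.filter (fun t => ∃ δ : F →₀ F, δ.support.card = n ∧ t.2 = t0.2 + L δ) := ⟨_, rfl⟩
  have memTn : ∀ n t, t ∈ Tn n ↔ t ∈ T ∧ ∃ δ : F →₀ F, δ.support.card = n ∧ t.2 = t0.2 + L δ := by
    intro n t
    rw [hTn, mem_filter]
  -- the values `x` of the neighbours of `t`
  obtain ⟨X, hX⟩ : ∃ X : F × (Fin (2 * r) → F) → Finset F, X = fun t =>
    (U.filter fun u => u.2 = t.2 + t.1 • vc (2 * r) u.1).image Prod.fst := ⟨_, rfl⟩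
  have memX : ∀ t x, x ∈ X t ↔ (x, t.2 + t.1 • vc (2 * r) x) ∈ U := by
    intro t x
    rw [hX, mem_image]
    constructor
    · rintro ⟨u, hu, rfl⟩
      rw [mem_filter] at hu
      rw [← hu.2]
      exact hu.1
    · intro h
      exact ⟨_, mem_filter.2 ⟨h, rfl⟩, rfl⟩
  have cardX : ∀ t ∈ T, J ≤ (X t).card := by
    intro t ht
    refine (hT1 t ht).trans (le_of_eq ?_)
    rw [hX]
    symm
    apply card_image_of_injOn
    intro u hu u' hu' h
    have h1 := (mem_filter.1 (mem_coe.1 hu)).2
    have h2 := (mem_filter.1 (mem_coe.1 hu')).2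
    refine Prod.ext h ?_
    rw [h1, h2]
    have : u.1 = u'.1 := h
    rw [this]
  have cardX2 : ∀ t ∈ T, ∀ δ : F →₀ F, J - δ.support.card ≤ (X t \ δ.support).card := by
    intro t ht δ
    have h1 := le_card_sdiff δ.support (X t)
    have h2 := cardX t ht
    omega
  -- the main step
  have step : ∀ n, n + 1 ≤ r → (Tn n).card * (J - n) ≤ (Tn (n + 1)).card * (n + 1) := by
    intro n hn
    refine card_mul_le_card_mul (fun t t' => ∃ (δ : F →₀ F) (x : F), δ.support.card = n ∧
      t.2 = t0.2 + L δ ∧ x ∉ δ.support ∧ t.1 ≠ t'.1 ∧ t'.2 = t.2 + (t.1 - t'.1) • vc (2 * r) x) ?_ ?_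
    · intro t ht
      obtain ⟨htT, δ, hδ, hδ2⟩ := (memTn _ _).1 ht
      have hex : ∀ x, x ∈ X t \ δ.support → ∃ t' ∈ T, t.1 ≠ t'.1 ∧
          t'.2 = t.2 + (t.1 - t'.1) • vc (2 * r) x := by
        intro x hx
        rw [mem_sdiff, memX] at hx
        have h1 := hU1 _ hx.1
        have h2 : 1 < (T.filter fun t' => t.2 + t.1 • vc (2 * r) x = t'.2 + t'.1 • vc (2 * r) x).card := h1
        obtain ⟨t', ht', hne⟩ := exists_mem_ne h2 t
        rw [mem_filter] at ht'
        have h3 : t'.2 = t.2 + (t.1 - t'.1) • vc (2 * r) x := by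
          rw [sub_smul, ← add_sub_assoc, ht'.2]
          abel
        refine ⟨t', ht'.1, ?_, h3⟩
        intro h
        apply hne
        refine Prod.ext h.symm ?_
        rw [h3, h, sub_self, zero_smul, add_zero]
      choose! g hg using hex
      have hrep : ∀ x, x ∈ X t \ δ.support →
          (g x).2 = t0.2 + L (δ + Finsupp.single x (t.1 - (g x).1)) := by
        intro x hx
        rw [map_add, hLs, (hg x hx).2.2, hδ2, add_assoc]
      have hcard : ∀ x, x ∈ X t \ δ.support →
          (δ + Finsupp.single x (t.1 - (g x).1)).support.card = n + 1 := by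
        intro x hx
        rw [supp_add _ _ _ (mem_sdiff.1 hx).2 (sub_ne_zero.2 (hg x hx).2.1), hδ]
      have h1 : J - n ≤ (X t \ δ.support).card := by
        rw [← hδ]
        exact cardX2 t htT δ
      refine h1.trans (card_le_card_of_injOn g ?_ ?_)
      · intro x hx
        have hx' := mem_coe.1 hx
        rw [mem_coe, mem_bipartiteAbove]
        refine ⟨(memTn _ _).2 ⟨(hg x hx').1, _, hcard x hx', hrep x hx'⟩, δ, x, hδ, hδ2,
          (mem_sdiff.1 hx').2, (hg x hx').2.1, (hg x hx').2.2⟩
      · intro x hx y hy hxy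
        have hx' := mem_coe.1 hx
        have hy' := mem_coe.1 hy
        have e1 := hrep x hx'
        have e2 := hrep y hy'
        rw [hxy] at e1
        have e3 := add_left_cancel (e1.symm.trans e2)
        have c1 := hcard x hx'
        rw [hxy] at c1
        have c2 := hcard y hy'
        have e4 := hun _ _ (by rw [c1, c2]; omega) e3
        have e5 := add_left_cancel e4
        have hne : t.1 - (g y).1 ≠ 0 := sub_ne_zero.2 (hg y hy').2.1
        have e6 := congrArg (fun f : F →₀ F => f x) e5
        simp only [Finsupp.single_eq_same] at e6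
        by_contra hxy2
        rw [Finsupp.single_eq_of_ne hxy2] at e6
        exact hne e6
    · intro t' ht'
      obtain ⟨ht'T, δ', hδ', hδ'2⟩ := (memTn _ _).1 ht'
      have hsub : bipartiteBelow (fun t t' => ∃ (δ : F →₀ F) (x : F), δ.support.card = n ∧
          t.2 = t0.2 + L δ ∧ x ∉ δ.support ∧ t.1 ≠ t'.1 ∧ t'.2 = t.2 + (t.1 - t'.1) • vc (2 * r) x)
          (Tn n) t' ⊆ δ'.support.image (fun x => (t'.1 + δ' x, t'.2 - δ' x • vc (2 * r) x)) := by
        intro t ht
        rw [mem_bipartiteBelow] at ht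
        obtain ⟨_, δ, x, h1, h2, h3, h4, h5⟩ := ht
        have hc := supp_add δ x (t.1 - t'.1) h3 (sub_ne_zero.2 h4)
        have e1 : L δ' = L (δ + Finsupp.single x (t.1 - t'.1)) := by
          rw [map_add, hLs]
          have : t0.2 + L δ' = t0.2 + (L δ + (t.1 - t'.1) • vc (2 * r) x) := by
            rw [← hδ'2, h5, h2, add_assoc]
          exact add_left_cancel this
        have e2 := hun _ _ (by rw [hδ', hc, h1]; omega) e1
        have e3 : δ' x = t.1 - t'.1 := by
          rw [e2, Finsupp.add_apply, Finsupp.notMem_support_iff.1 h3, zero_add, Finsupp.single_eq_same]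
        rw [mem_image]
        refine ⟨x, ?_, ?_⟩
        · rw [Finsupp.mem_support_iff, e3]
          exact sub_ne_zero.2 h4
        · refine Prod.ext ?_ ?_
          · show t'.1 + δ' x = t.1
            rw [e3]
            ring
          · show t'.2 - δ' x • vc (2 * r) x = t.2
            rw [e3, h5]
            abel
      refine (card_le_card hsub).trans (card_image_le.trans (le_of_eq hδ'))
  -- growth
  have grow : ∀ n, n ≤ r → (J - r) ^ n ≤ n.factorial * (Tn n).card := by
    intro n
    induction n with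
    | zero =>
      intro _
      have : 1 ≤ (Tn 0).card := by
        apply card_pos.2
        exact ⟨t0, (memTn _ _).2 ⟨ht0, 0, by simp, by simp⟩⟩
      simpa using this
    | succ n ih =>
      intro hn
      have h1 := ih (by omega)
      have h2 := step n hn
      calc (J - r) ^ (n + 1) = (J - r) ^ n * (J - r) := pow_succ _ _
        _ ≤ (n.factorial * (Tn n).card) * (J - n) := Nat.mul_le_mul h1 (by omega)
        _ = n.factorial * ((Tn n).card * (J - n)) := by ring
        _ ≤ n.factorial * ((Tn (n + 1)).card * (n + 1)) := Nat.mul_le_mul le_rfl h2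
        _ = (n + 1).factorial * (Tn (n + 1)).card := by
            rw [Nat.factorial_succ]
            ring
  obtain ⟨s, rfl⟩ : ∃ s, r = s + 1 := ⟨r - 1, by omega⟩
  have last : (Tn s).card * (J - s) ≤ U.card * 1 := by
    refine card_mul_le_card_mul (fun t u => ∃ δ : F →₀ F, δ.support.card = s ∧
      t.2 = t0.2 + L δ ∧ u.1 ∉ δ.support ∧ u.2 = t.2 + t.1 • vc (2 * (s + 1)) u.1) ?_ ?_
    · intro t ht
      obtain ⟨htT, δ, hδ, hδ2⟩ := (memTn _ _).1 ht
      have h1 : J - s ≤ (X t \ δ.support).card := by
        rw [← hδ]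
        exact cardX2 t htT δ
      refine h1.trans (card_le_card_of_injOn (fun x => (x, t.2 + t.1 • vc (2 * (s + 1)) x)) ?_ ?_)
      · intro x hx
        have hx' := mem_sdiff.1 (mem_coe.1 hx)
        rw [mem_coe, mem_bipartiteAbove]
        exact ⟨(memX _ _).1 hx'.1, δ, hδ, hδ2, hx'.2, rfl⟩
      · intro x _ y _ h
        exact (Prod.mk.inj h).1
    · intro u _
      rw [card_le_one]
      intro t ht t' ht'
      rw [mem_bipartiteBelow] at ht ht'
      obtain ⟨_, δ, h1, h2, h3, h4⟩ := ht
      obtain ⟨_, δ', h1', h2', h3', h4'⟩ := ht'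
      have e1 : L (δ + Finsupp.single u.1 (t.1 - t'.1)) = L δ' := by
        rw [map_add, hLs, sub_smul]
        have : t0.2 + L δ + t.1 • vc (2 * (s + 1)) u.1 = t0.2 + L δ' + t'.1 • vc (2 * (s + 1)) u.1 := by
          rw [← h2, ← h2', ← h4, ← h4']
        have h5 : L δ + t.1 • vc (2 * (s + 1)) u.1 = L δ' + t'.1 • vc (2 * (s + 1)) u.1 := by
          rw [add_assoc, add_assoc] at this
          exact add_left_cancel this
        rw [← add_sub_assoc, h5]
        abel
      have c1 : (δ + Finsupp.single u.1 (t.1 - t'.1)).support.card ≤ s + 1 := by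
        refine (card_le_card Finsupp.support_add).trans ((card_union_le _ _).trans ?_)
        rw [h1]
        have : (Finsupp.single u.1 (t.1 - t'.1)).support.card ≤ 1 := by
          refine (card_le_card Finsupp.support_single_subset).trans ?_
          simp
        omega
      have e2 := hun _ _ (by rw [h1']; omega) e1
      have e3 := congrArg (fun f : F →₀ F => f u.1) e2
      simp only [Finsupp.add_apply, Finsupp.single_eq_same, Finsupp.notMem_support_iff.1 h3,
        Finsupp.notMem_support_iff.1 h3', zero_add] at e3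
      have e4 : t.1 = t'.1 := sub_eq_zero.1 e3
      refine Prod.ext e4 ?_
      have : t.2 + t.1 • vc (2 * (s + 1)) u.1 = t'.2 + t'.1 • vc (2 * (s + 1)) u.1 := h4.symm.trans h4'
      rw [e4] at this
      exact add_right_cancel this
  have h1 := grow s (by omega)
  have h2 : (J - (s + 1)) ^ (s + 1) ≤ s.factorial * U.card := by
    calc (J - (s + 1)) ^ (s + 1) = (J - (s + 1)) ^ s * (J - (s + 1)) := pow_succ _ _
      _ ≤ (s.factorial * (Tn s).card) * (J - s) := Nat.mul_le_mul h1 (by omega)
      _ = s.factorial * ((Tn s).card * (J - s)) := by ring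
      _ ≤ s.factorial * (U.card * 1) := Nat.mul_le_mul le_rfl last
      _ = s.factorial * U.card := by rw [mul_one]
  have h3 : (s + 1).factorial * Q < s.factorial * U.card := lt_of_lt_of_le hQ h2
  have h4 : s.factorial * Q < s.factorial * U.card := by
    refine lt_of_le_of_lt ?_ h3
    exact Nat.mul_le_mul (Nat.factorial_le (by omega)) le_rfl
  exact Nat.lt_of_mul_lt_mul_left h4

end Pool.Agent.Helper81.XP
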